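import Pool.Agent.K6.H33.PT.WkP

set_option autoImplicit false

/-! # Poles of Igusa's Poincare series for products of powers of nested minors and Pfaffians

Let `F_1, ..., F_n` be the leading principal minors of the generic `n × n` matrix (`Kind.generic`, `d = 1`)
or the Pfaffians of the leading principal submatrices of the generic skew symmetric `2 n × 2 n` matrix
(`Kind.skew`, `d = 2`), and `f = F_1 ^ (a_1) ⋯ F_n ^ (a_n)`. For EVERY prime `p`, ALL exponents
`a_k ≥ 0`, every pole of the Poincare series of `f` and every `b` with `b(s) f ^ s = P(s) f ^ (s + 1)`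
there is an integer `i ≥ 0` with `b(t₀ + i) = 0`. A positive answer to Denef's question, `i = 0`,
holds for `f` and EVERY prime `p` if any two of the numbers `(d (j - k) + 1) / (a_k + ... + a_j)`,
`k ≤ j`, `a_j > 0`, differ by less than one (`Close`), for instance if all `a_k = 1` or if all these
numbers are at most one. Nothing is taken from a resolution of singularities.

* The `p`-adic side (`Peel`, `I_succ`, `SI_succ`): a row of the matrix is rotated into a vector with one
  non-zero entry by substitutions which respect the flag of the leading coordinates (for skew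
  matrices acting on rows and columns, which preserves the measure, `skew_mp`). So the integral of
  `|f| ^ s` is a product of integrals `∫ ∏_m ‖(u_1, ..., u_m)‖ ^ (c_m s) du` over `ℤ_p ^ M`, with
  `M = n, n - 1, ..., 1` and `c = (a_{r + 1}, a_{r + 2}, ...)` for minors, and `M = 2 n - 1, 2 n - 3, ..., 1`
  and `c = (a_{r + 1}, 0, a_{r + 2}, 0, ...)` for Pfaffians. The denominator is a product of factors
  `p ^ (d m + 1) - p ^ (-A s)`, `A = a_{r + 1} + ... + a_{r + m + 1}`, `a_{r + m + 1} > 0`.
* The complex side: the same rotations, by unitary matrices, give the Gaussian integral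
  `∫ |f| ^ (2 s) e ^ (-|x| ^ 2) dx` as a quotient of products of values of `Γ`.
* The roots (`root_hom`, `Pool.Agent.K6.H7.PF.root_hom_ext`): if `b(s) f ^ s = P(s) f ^ (s + 1)` then for
  `m = 0, 1, 2, ...` integration by parts over the ball gives
  `|b(m)| ^ 2 ∫ |f| ^ (2 m) ρ ^ k = ∑_j m ^ j ∫ |f| ^ (2 (m + 1)) w_j ρ`, `ρ = max (0, 1 - |x| ^ 2)`. By
  Carlson's theorem this holds for all complex `s` with positive real part instead of `m`. If the
  Gaussian integral has no poles with real part `> -λ`, the right side is holomorphic for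
  `Re s > -1 - λ` (Landau's lemma), so a pole `s₀ > -1 - λ` of the left side is a root of `b`.
* All exponents (`bf_pow`): for large `N` the condition `Close` holds for `f ^ N`, and
  `b(N s) b(N s + 1) ⋯ b(N s + N - 1)` is a polynomial of a functional equation of `f ^ N`.

The extension of the root theorem to the left of `-1` (`K6/H7/PF`) is by helper7. -/

namespace Pool.Agent.Results.MP_5d9b3c_ag.MinorsAndPfaffians

open Pool.Agent.W427.SMC Pool.Agent.H628R4.TP

/-- The two kinds of generic matrices. -/
inductive Kind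
  /-- matrices of size `n` -/
  | generic
  /-- skew symmetric matrices of size `2 n` -/
  | skew

/-- The number `d`: `1` for generic matrices, `2` for skew symmetric matrices. -/
def Kind.d : Kind → ℕ
  | generic => 1
  | skew => 2

/-- The indices of the variables: the pairs `(i, j)`, `i, j < n`, for generic matrices, the pairs
`i < j < 2 n` for skew symmetric matrices. -/
def Kind.Var : Kind → ℕ → Type
  | generic, n => Fin n × Fin n
  | skew, n => {q : Fin (2 * n) × Fin (2 * n) // q.1 < q.2}

instance : (κ : Kind) → (n : ℕ) → Fintype (κ.Var n)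
  | Kind.generic, n => inferInstanceAs (Fintype (Fin n × Fin n))
  | Kind.skew, n => inferInstanceAs (Fintype {q : Fin (2 * n) × Fin (2 * n) // q.1 < q.2})

/-- The generic skew symmetric `m × m` matrix; its entries above the diagonal are the variables. -/
noncomputable def skewMatrix (m : ℕ) (i j : Fin m) :
    MvPolynomial {q : Fin m × Fin m // q.1 < q.2} ℤ :=
  if h : i < j then MvPolynomial.X ⟨(i, j), h⟩ else
    if h : j < i then - MvPolynomial.X ⟨(j, i), h⟩ else 0

/-- The polynomial `F_{k + 1}`: the determinant of the first `k + 1` rows and columns of the generic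
matrix, or the Pfaffian of the first `2 (k + 1)` rows and columns of the generic skew symmetric
matrix. -/
noncomputable def Kind.F : (κ : Kind) → (n : ℕ) → Fin n → MvPolynomial (κ.Var n) ℤ
  | generic, n, k => Matrix.det (Matrix.of fun i j : Fin ((k : ℕ) + 1) =>
      (MvPolynomial.X (Fin.castLE k.isLt i, Fin.castLE k.isLt j) : MvPolynomial (Fin n × Fin n) ℤ))
  | skew, n, k => Pool.Agent.Helper929.pf (2 * ((k : ℕ) + 1))
      (Matrix.of fun i j : Fin (2 * ((k : ℕ) + 1)) =>
        skewMatrix (2 * n) (Fin.castLE (by have := k.isLt; omega) i)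
          (Fin.castLE (by have := k.isLt; omega) j))

/-- The polynomial `F_1 ^ (a 0) ⋯ F_n ^ (a (n - 1))`. -/
noncomputable def Kind.powers (κ : Kind) {n : ℕ} (a : Fin n → ℕ) : MvPolynomial (κ.Var n) ℤ :=
  ∏ k : Fin n, κ.F n k ^ a k

/-- The number `(d (j - k) + 1) / (a_k + ... + a_j)`. -/
noncomputable def ratio (d : ℕ) {n : ℕ} (a : Fin n → ℕ) (k j : Fin n) : ℚ :=
  ((d : ℚ) * ((j : ℕ) - (k : ℕ)) + 1) / ∑ i ∈ Finset.Icc k j, (a i : ℚ)

/-- Any two of the numbers `(d (j - k) + 1) / (a_k + ... + a_j)`, `k ≤ j`, `a_j > 0`, differ by less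
than one. -/
def Close (d : ℕ) {n : ℕ} (a : Fin n → ℕ) : Prop :=
  ∀ k j : Fin n, k ≤ j → 0 < a j → ∀ k' j' : Fin n, k' ≤ j' → 0 < a j' →
    ratio d a k j < 1 + ratio d a k' j'

/-- Denef's question for `f` and `p`: the Poincare series of `f` is the expansion at `0` of a rational
function `Φ`, and for every pole `T₀` of `Φ` the number `t₀ = -log |T₀| / log p` is a root of every
polynomial `b` which satisfies a functional equation `b(s) f ^ s = P(s) f ^ (s + 1)`, `P(s)` in the Weyl
algebra, polynomial in `s` (`IsBFunction`), in particular of the Bernstein-Sato polynomial `b_f`. -/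
def PolesAreRoots (p : ℕ) [Fact p.Prime] {σ : Type} [Fintype σ] (f : MvPolynomial σ ℤ) : Prop :=
  ∃ Φ : RatFunc ℂ,
    ((Φ.denom : Polynomial ℂ) : PowerSeries ℂ) * poincare p f = ((Φ.num : Polynomial ℂ) : PowerSeries ℂ) ∧
    ∀ T₀ : ℂ, Φ.denom.eval T₀ = 0 → ∀ b : Polynomial ℂ,
      IsBFunction (MvPolynomial.map (Int.castRingHom ℂ) f) b →
        b.eval ((-Real.log ‖T₀‖ / Real.log p : ℝ) : ℂ) = 0

/-- The weak form of Denef's question for `f` and `p`: the Poincare series of `f` is the expansion at `0` of
a rational function `Φ`, and for every pole `T₀` of `Φ` and every `b` as above one of the numbers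
`t₀, t₀ + 1, t₀ + 2, ...`, `t₀ = -log |T₀| / log p`, is a root of `b`. -/
def PolesAreRootsModIntegers (p : ℕ) [Fact p.Prime] {σ : Type} [Fintype σ] (f : MvPolynomial σ ℤ) :
    Prop :=
  ∃ Φ : RatFunc ℂ,
    ((Φ.denom : Polynomial ℂ) : PowerSeries ℂ) * poincare p f = ((Φ.num : Polynomial ℂ) : PowerSeries ℂ) ∧
    ∀ T₀ : ℂ, Φ.denom.eval T₀ = 0 → ∀ b : Polynomial ℂ,
      IsBFunction (MvPolynomial.map (Int.castRingHom ℂ) f) b →
        ∃ i : ℕ, b.eval (((-Real.log ‖T₀‖ / Real.log p : ℝ) : ℂ) + i) = 0

/-- **Denef's question for products of powers of nested minors and of nested Pfaffians**, for every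
prime `p`: the weak form for all exponents, the question itself if the condition `Close` holds. -/
theorem result (κ : Kind) {n : ℕ} (a : Fin n → ℕ) (p : ℕ) [Fact p.Prime] :
    PolesAreRootsModIntegers p (κ.powers a) ∧ (Close κ.d a → PolesAreRoots p (κ.powers a)) := by
  refine ⟨?_, fun ha => ?_⟩
  · cases κ with
    | generic =>
      obtain ⟨Φ, h1, h2⟩ := Pool.Agent.K6.H33.PT.poincare_minors' p a
      refine ⟨Φ, h1, fun T₀ hT b hb => ?_⟩
      obtain ⟨i, hi, -⟩ := h2 T₀ hT b hb
      exact ⟨i, hi⟩
    | skew =>
      obtain ⟨Φ, h1, h2⟩ := Pool.Agent.K6.H33.PT.poincare_npf' p a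
      refine ⟨Φ, h1, fun T₀ hT b hb => ?_⟩
      obtain ⟨i, hi, -⟩ := h2 T₀ hT b hb
      exact ⟨i, hi⟩
  · cases κ with
    | generic => exact Pool.Agent.K6.H33.PF.poincare_minors p a ha
    | skew => exact Pool.Agent.K6.H33.PF.poincare_npf p a ha

end Pool.Agent.Results.MP_5d9b3c_ag.MinorsAndPfaffians
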