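import Pool.Agent.K6.H7.UN.NC

set_option autoImplicit false

/-! # Denef's question and the polynomials of a path with disjoint blocks

Denef's question for the Poincare series has a positive answer for all polynomials with integral
coefficients if it has one for the polynomials
`F_{n,M} = x_0 x_1 + x_1 x_2 + ⋯ + x_{n - 1} x_n + ∑_{e ∈ M} ∏_{i ∈ e} x_i`,
where `M` is a set of pairwise disjoint sets with one, two or three elements: a path, and in addition
a sum of products of pairwise disjoint sets of at most three variables.

Method. (a) The polynomial `t f(x) + ∑_{k ≤ m} u_k v_k` carries the information of `f`, shifted by `m`.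
(b) By automorphisms of the polynomial ring and further planes `u v` it becomes a sum of square-free
monomials of degree at most three with coefficients one. (c) Disconnecting the occurrences of a variable:
`h(a, a) + u v` is equivalent to `h(a, b) + v (a + b)` up to signs, so that every variable occurs in one
monomial and in a system of equations `a + b = 0`. (d) The bipartite graph of these equations and the
variables is a union of paths; they are joined to a single path by planes `u v`, at the cost of
further disjoint products of two variables. -/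

namespace Pool.Agent.Results.MP_5d9b3c_ag.PathsWithDisjointBlocks

open MvPolynomial Pool.Agent.W427.SMC Pool.Agent.H628R4.TP Pool.Agent.N165.CU
open Pool.Agent.K6.H7.UN

/-- **Denef's question and paths with disjoint blocks.** Let
`F_{n,M} = ∑_{i < n} x_i x_{i+1} + ∑_{e ∈ M} ∏_{i ∈ e} x_i`, where `n ≥ 4` and `M` is a set of pairwise
disjoint subsets of `{0, …, n}` with one, two or three elements. (1) For every prime `p`: if
`t₀ = - log |T₀| / log p` is a root of `b` for all poles `T₀` of the Poincare series of every `F_{n,M}`
and all `b` with a functional equation of `F_{n,M}`, then the same is true for all non-constant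
polynomials with integral coefficients; and conversely. (2) The same with orders of poles and
multiplicities of roots. (3) For every `f` in `V` variables there are `m ≥ 2` and
`F = F_{n,M}`, `n = |V| + 2 m`, with
`(p - T) P_F(T) = 1 + (p - 1) P_f(p ^ (-m) T)` for all primes `p`, and `(s + 1) b(s + m)` has a
functional equation of `F` if `b` has one of `f`. -/
theorem result :
    (∀ (p : ℕ) [Fact p.Prime],
      ((∀ (n : ℕ) (M : Finset (Finset (Fin (n + 1)))), 4 ≤ n →
          (∀ e ∈ M, 1 ≤ e.card ∧ e.card ≤ 3) →
          (M : Set (Finset (Fin (n + 1)))).PairwiseDisjoint id →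
          PoincareMonodromy p (path n + hyp M)) ↔
        ∀ (V : Type) [Fintype V] (f : MvPolynomial V ℤ), (∀ c : ℤ, f ≠ C c) →
          PoincareMonodromy p f) ∧
      ((∀ (n : ℕ) (M : Finset (Finset (Fin (n + 1)))), 4 ≤ n →
          (∀ e ∈ M, 1 ≤ e.card ∧ e.card ≤ 3) →
          (M : Set (Finset (Fin (n + 1)))).PairwiseDisjoint id →
          PoincareMonodromyOrders p (path n + hyp M)) ↔
        ∀ (V : Type) [Fintype V] (f : MvPolynomial V ℤ), (∀ c : ℤ, f ≠ C c) →
          PoincareMonodromyOrders p f)) ∧
    ∀ (V : Type) [Fintype V] (f : MvPolynomial V ℤ),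
      ∃ (n : ℕ) (M : Finset (Finset (Fin (n + 1)))) (m : ℕ), 2 ≤ m ∧
        n = Fintype.card V + 2 * m ∧ (∀ e ∈ M, 1 ≤ e.card ∧ e.card ≤ 3) ∧
        (M : Set (Finset (Fin (n + 1)))).PairwiseDisjoint id ∧
        (∀ (p : ℕ) [Fact p.Prime],
          (PowerSeries.C (p : ℂ) - PowerSeries.X) * poincare p (path n + hyp M) =
            1 + PowerSeries.C ((p : ℂ) - 1) *
              PowerSeries.rescale (((p : ℂ) ^ m)⁻¹) (poincare p f)) ∧
        ∀ b : Polynomial ℂ, IsBFunction (map (Int.castRingHom ℂ) f) b →
          IsBFunction (map (Int.castRingHom ℂ) (path n + hyp M))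
            ((Polynomial.X + 1) * b.comp (Polynomial.X + Polynomial.C (m : ℂ))) := by
  refine ⟨fun p _ => ⟨⟨fun h V _ f _ => ?_, fun h n M hn hM _ => h _ _ fun c =>
      nf_ne (by omega) M (fun e he => (hM e he).1) c⟩,
    ⟨fun h V _ f _ => ?_, fun h n M hn hM _ => h _ _ fun c =>
      nf_ne (by omega) M (fun e he => (hM e he).1) c⟩⟩, fun V _ f => ?_⟩
  · obtain ⟨n, M, m, hm, hn, h1, h2, h3⟩ := exists_start f
    exact (poin_transfer f _ m hm p h3.bf (h3.poin p)).1 (h n M (by omega) h1 h2)
  · obtain ⟨n, M, m, hm, hn, h1, h2, h3⟩ := exists_start f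
    exact (poin_transfer f _ m hm p h3.bf (h3.poin p)).2 (h n M (by omega) h1 h2)
  · obtain ⟨n, M, m, hm, hn, h1, h2, h3⟩ := exists_start f
    exact ⟨n, M, m, hm, hn, h1, h2, fun p _ => h3.poin p, h3.bf⟩

end Pool.Agent.Results.MP_5d9b3c_ag.PathsWithDisjointBlocks
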