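import Mathlib
import Pool.Agent.K6.H42.SE.Last

/-!
# The poles of Igusa's Poincare series and stable equivalence

Ideals and polynomials with rational coefficients, in any number of variables. `Cls N o B false` is a class
of ideals and `Cls N o B true` a class of polynomials (`Pool/Agent/K6/H42/SE/Cl.lean`); they contain the given
families `B` and are closed under

* automorphisms of `ℚ[x]`, AT EVERY STAGE (no prime of the given set `N` may occur in a denominator of the
  automorphism or of its inverse; `N = ∅`: all automorphisms), renaming of the variables and of the
  generators, dropping variables of polynomials which do not occur;
* the passage from the ideal `(f_j)` to the polynomial `∑ y_j f_j` AND BACK;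
* the passage from the polynomial `g` to the ideal `(g + ∑ y_k z_k)` AND BACK. So the class is also closed
  under changes of the generators of an ideal (`Cls.gens`), under the passage from `I` to `I + (z)` and back
  (`Cls.unsum`), and for `N = ∅` it depends only on the ring `ℚ[x] / I`, not on the embedding of the scheme
  in an affine space (`Cls.embed`);
* `I + J`, `I J`, `F(x) G(y)`, the Thom-Sebastiani sums `∑ y_j f_j(x) + g(z)` and the products of powers
  `h ∏_t (∑_j y_{t,j} f_{t,j}) ^ a_t`, with disjoint sets of variables;
* the powers `g ^ k`, `k ≥ 2`, as members of the SECOND class, if the ideal `(g)` is in the first one;
  `F(x) G(y)` as a member of the second class, if `F` is one and `(G)` is in the first class; for `o = false`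
  also the passage from the ideal `(F)` to `F`, if `(s + 1) ^ 2` divides all the `b(s)`.

The given families `Base N o` (`Pool/Agent/K6/H42/SE/Kn.lean`) are: the ideals which are obtained from the
ideals of `ℚ[x, y]` by sums, products and cones (the class `Good` of the starting files); the monomial
ideals; the polynomials with affinely independent exponents, as members of the SECOND class; the formulas
over plane curves and weighted homogeneous polynomials with isolated critical points (`RO`); for `o = false`
the polynomials of degree one in all but two variables; the products of ideals of minors or Pfaffians of
generic, symmetric or skew symmetric matrices; and all principal ideals `(F)` which satisfy the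
conjecture themselves for almost all primes, among them all primes of `N` (with a rational zeta function:
this is Igusa's theorem, and it is proved in `Pool/Agent/K6/H42/SE/Nd2.lean` for nondegenerate polynomials). So
the theorem is at the same time a theorem on the operations: they preserve the conjecture.

Method. Let `Z(s)` be the zeta function, `T = p ^ (-s)`. An automorphism over `ℤ_p` preserves the Haar
measure of `ℤ_p ^ n`. The zeta function of `g + ∑ y_k z_k` is computed from the one of `g`, and conversely
(`FK.lean`, `Inv.lean`), also for the ideal `(f_j)` and the polynomial `∑ y_j f_j`; at the same time the
functional equations are transformed (`B.lean`), with the multiplicities of the roots, and the pole `T = p` is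
treated together with the factor `s + 1`. For the powers (`PowB.lean`): if `b(s)` satisfies a functional
equation of `g ^ k`, `k ≥ 2`, then `b(s) = (s + 1) c(s)`, and `c(s / k)` satisfies one of `g`.
Affinely independent exponents (`Sparse.lean`): the exponents of `g + y z` are affinely independent.
-/

set_option autoImplicit false

namespace Pool.Agent.Results.MP_5d9b3c_ag.StableEquivalence

open Pool.Agent.K6.H42.SE

/-- **The poles of Igusa's Poincare series, for the closure of the known classes under stable equivalence
and the other operations.**

`hypQ F` is the family with the only member `F`; `hF`: the ideal `(F)` in `ℚ[x]` is in the closure of the given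
families `Base N o`. The conclusion: for all primes `p` outside a finite set, which does not meet `N`,
`Denef p o F`: the Poincare series `∑ a_{p,m} (p ^ (-n) T) ^ m` of `F` is the expansion of a rational function
`Φ`, and for every pole `T₀` of `Φ` the number `-log |T₀| / log p` is a root of every `b` with a functional
equation `b(s) F ^ s = P(s) F ^ (s + 1)`, in particular of `b_F`, for `o = true` of a multiplicity which is at
least the order of the pole. If `N` is the set of all primes (then the automorphisms have to be defined
over `ℤ`), then this holds for EVERY prime. -/
theorem result (N : Set ℕ) (o : Bool) {V : Type} [Fintype V] (F : MvPolynomial V ℤ)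
    (hF : Cls N o (Base N o) false (hypQ (MvPolynomial.map (Int.castRingHom ℚ) F))) :
    ∃ S : Finset ℕ, (∀ p ∈ S, p ∉ N) ∧ ∀ (p : ℕ) [Fact p.Prime], p ∉ S → Denef p o F :=
  denef_last F hF

end Pool.Agent.Results.MP_5d9b3c_ag.StableEquivalence
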