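import Pool.Agent.K6.H77.PD.Poin

/-!
# Determinants of the matrix products along the paths of a rooted tree

Let a rooted tree be given, the root and the leaves of dimension `n`, each inner vertex of some dimension
`m ≥ n`, and each leaf with an exponent `a ≥ 0`. To each edge belongs a matrix whose entries are
different variables (the numbers of its rows and columns are the dimensions of the two ends of the
edge), and `f` is the product, over the leaves, of the `a`-th powers of the determinants of the
products of the matrices on the path from the root to the leaf (`poly n t`). Examples: the determinant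
of a product of rectangular generic matrices, such as the bilinear form `∑ x_i y_i` and the entries
`xᵀ A_1 ⋯ A_k y` of products of generic matrices for `n = 1`; `det (A B)² det (A C D) det (A C E)`.

For an edge `e` let `m_e` be the dimension of its end and `N_e` the sum of the exponents of the leaves below
it. The result:

1. The polynomials `b` with a functional equation `b(s) f ^ s = P(s) f ^ (s + 1)` are the multiples of
   `∏_e ∏_{i < n} ∏_{j < N_e} (N_e s + m_e - i + j)`; so this is `b_f` up to a constant factor.
2. For EVERY prime `p` the Poincare series is given by
   `(1 - T) D(T) P(T) = D(T) - T ∏_e ∏_{i < n} (p ^ (m_e - i) - 1)`,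
   `D(T) = ∏_e ∏_{i < n} (p ^ (m_e - i) - T ^ (N_e))`.
3. The order of every pole `T₀` of `P(T)` is at most the multiplicity of `t₀ = -log |T₀| / log p` as a root
   of every nonzero `b` as in 1. So the question has a positive answer for `f` and every prime, with
   orders.

There is no condition on the exponents and nothing is taken from a resolution of singularities, from the
structure theorems for prehomogeneous spaces or from the microlocal theory.

* The functional equation is `f(∂) f ^ (s + 1) = β(s) f ^ s`. It is proved by recursion over the tree for
  the apolar pairing, over arbitrary commutative rings: a matrix product `y z` at the root is replaced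
  by a generic matrix by a form of Capelli's identity for functions which are semi-invariant under
  `GL_n` (`CayT`, `Cap`, `Two`).
* Every `b` is a multiple of `β`: pair the equation with `f ^ s`; the adjoint of a differential operator
  maps `f ^ s` to `f ^ (s - M)` times a polynomial in `s`, and Cayley's identity gives the value of the
  pairing of this with `f ^ (s + 1)`, which has the factor `β(s)` (`Bern`).
* The `p`-adic side: an `n × m` matrix is moved to `(A 0)` by a unimodular substitution of its columns,
  which changes the matrices of the following edges by unimodular factors. The integral of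
  `|f| ^ s` is the product over the edges of integrals of powers of the maximal norm of the `n × n` minors
  of a generic matrix (`U4`; the pieces `U1`, `U2` are by helper73, `U3` by helper44, `U4` by helper63).
-/

set_option autoImplicit false

namespace Pool.Agent.Results.MP_5d9b3c_ag.TreesOfMatrices

open Polynomial Pool.Agent.W427.SMC Pool.Agent.H628R4.TP Pool.Agent.K6.H77.PD

/-- **The Bernstein-Sato polynomials and the Poincare series of path determinants of rooted trees.**

`t : Tr` is the tree below the root, `poly n t` is `f`, `Ok n t` says that the inner vertices have dimension at
least `n`. `facs n t` is the list of the pairs `(N_e, m_e - i)`, for the edges `e` and `i < n`, and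
`betaP l = ∏_{(N, ν) ∈ l} ∏_{j < N} (N s + ν + j)`. `IsBFunction F b` says that `b(s) F ^ s = P(s) F ^ (s + 1)` for
an operator `P(s)` in the Weyl algebra, polynomial in `s`. `poincare p f` is the series
`∑_m a_m (p ^ (-v) T) ^ m`, `v` the number of variables. -/
theorem result (n : ℕ) (t : Tr) (h : Ok n t) :
    (∀ b : ℂ[X], IsBFunction (MvPolynomial.map (Int.castRingHom ℂ) (poly n t)) b ↔
      betaP (facs n t) ∣ b) ∧
    ∀ (p : ℕ) [Fact p.Prime],
      (((1 - X) * ((facs n t).map fun q => C ((p : ℂ) ^ q.2) - X ^ q.1).prod : ℂ[X]) :
          PowerSeries ℂ) * poincare p (poly n t) =
        ((((facs n t).map fun q => C ((p : ℂ) ^ q.2) - X ^ q.1).prod -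
          X * ((facs n t).map fun q => C ((p : ℂ) ^ q.2 - 1)).prod : ℂ[X]) : PowerSeries ℂ) ∧
      ∃ Φ : RatFunc ℂ,
        ((Φ.denom : ℂ[X]) : PowerSeries ℂ) * poincare p (poly n t) =
          ((Φ.num : ℂ[X]) : PowerSeries ℂ) ∧
        ∀ (T₀ : ℂ) (b : ℂ[X]), b ≠ 0 →
          IsBFunction (MvPolynomial.map (Int.castRingHom ℂ) (poly n t)) b →
          Φ.denom.rootMultiplicity T₀ ≤
            b.rootMultiplicity ((-Real.log ‖T₀‖ / Real.log p : ℝ) : ℂ) :=
  ⟨isB_iff n t h, fun p _ => ⟨poincare_closed p n t h, poincare_tree p n t h⟩⟩

end Pool.Agent.Results.MP_5d9b3c_ag.TreesOfMatrices
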